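import Pool.Agent.W386.VSC

set_option autoImplicit false

/-!
# Virtual surjection to `k`-tuples implies type `FP_k`

Let `Γ_1, …, Γ_n` be finitely generated groups of type `FP_k`, `2 ≤ k ≤ n` (for instance limit
groups, which are of type `FP_k` for all `k`), and let `P ≤ Γ_1 × ⋯ × Γ_n` be a subgroup which
virtually surjects to `k`-tuples. Then `P` is of type `FP_k`.
-/

namespace Pool.Agent.Results.MP_d943a5_al.VirtualSurjectionToTuples

open Pool.Agent.W386

/-- Type `FP_m` for a group `G`: there is a partial resolution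
`F_m → ⋯ → F_1 → F_0 → ℤ → 0` of the trivial module by finitely generated free modules
`F_i = (ℤG)^{k i}`; `ε` is the augmentation of `ℤG`, and `F_0 → ℤ` is the sum of the
augmentations of the coordinates. -/
def TypeFP (m : ℕ) (G : Type) [Group G] : Prop :=
  ∃ (k : ℕ → ℕ) (ε : MonoidAlgebra ℤ G →+* ℤ)
    (d : ∀ i : ℕ, (Fin (k (i+1)) → MonoidAlgebra ℤ G) →ₗ[MonoidAlgebra ℤ G]
          (Fin (k i) → MonoidAlgebra ℤ G)),
    (∀ g : G, ε (MonoidAlgebra.of ℤ G g) = 1) ∧
    (∃ x : Fin (k 0) → MonoidAlgebra ℤ G, ∑ j, ε (x j) = 1) ∧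
    (0 < m → ∀ x : Fin (k 0) → MonoidAlgebra ℤ G,
        (∑ j, ε (x j) = 0 ↔ x ∈ LinearMap.range (d 0))) ∧
    (∀ j : ℕ, j + 2 ≤ m → LinearMap.range (d (j+1)) = LinearMap.ker (d j))

/-- The projection of `∏ Γ_i` to the coordinates in `J`. -/
def proj {n : ℕ} {Γ : Fin n → Type} [∀ i, Group (Γ i)] (J : Finset (Fin n)) :
    (∀ i, Γ i) →* (∀ j : J, Γ j) :=
  MonoidHom.pi (fun j : J => Pi.evalMonoidHom Γ (j : Fin n))

/-- Subgroups of products of groups of type `FP_k` which virtually surject to `k`-tuples are of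
type `FP_k`. -/
theorem result (n k : ℕ) (hk : 2 ≤ k) (hkn : k ≤ n) (Γ : Fin n → Type) [∀ i, Group (Γ i)]
    (hfg : ∀ i, Group.FG (Γ i)) (hΓ : ∀ i, TypeFP k (Γ i)) (P : Subgroup (∀ i, Γ i))
    (hP : ∀ J : Finset (Fin n), J.card = k → (P.map (proj J)).index ≠ 0) :
    TypeFP k P := by
  have hk0 : 0 < k := by omega
  have hVS : VS k Finset.univ P := by
    intro J _ hJ
    obtain ⟨J', hJJ', hJ'⟩ := Finset.exists_superset_card_eq (n := k) hJ (by simpa using hkn)
    have h4 : (P.map (proj J')).FiniteIndex := ⟨hP J' hJ'⟩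
    have h6 := fi_comap (proj J') (P.map (proj J'))
    rw [Subgroup.comap_map_eq] at h6
    refine Subgroup.finiteIndex_of_le (H := P ⊔ (proj J').ker) (sup_le_sup_left ?_ P)
    intro x hx j hj
    exact congrFun (show proj J' x = 1 from hx) ⟨j, hJJ' hj⟩
  have hHH : HH Finset.univ P := hh_of_vs (fun i => Finset.mem_univ i) (hVS.mono hk)
  have hSupp : Supp Finset.univ P := fun x _ i hi => absurd (Finset.mem_univ i) hi
  exact data_of_fps (vs_main hfg Finset.univ k P (fun i => fps_of_data hk0 (hΓ i)) hSupp hHH hVS)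

end Pool.Agent.Results.MP_d943a5_al.VirtualSurjectionToTuples
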